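import Pool.Agent.H45.KC.DJ

/-!
# Project AB, module Phi (residue map)

`m = f * p`, `p` a prime with `p ∤ f`, `M = ℚ(ζ_m)`, `ζ ∈ 𝓞 M` a primitive `m`-th root of unity,
`k` a field of characteristic `p`, `e : 𝓞 M →+* k` a ring homomorphism, `g = e ζ` (a primitive `f`-th
root of unity).  `𝓞 M = ℤ[ζ]`, and `ζ ↦ g X` defines a ring homomorphism
`Φ_e : 𝓞 M → k[X]/(X - 1)^(p-1)`, because `Φ_m = Φ_f^(p-1)` modulo `p` and `X - 1 ∣ Φ_f (g X)`.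
Modulo `X - 1` it is `e`.  `Lg ζ e j A` is the `j`-th logarithmic derivative at `1` of `Φ_e(A)`
(`1 ≤ j ≤ p - 2`, `e A ≠ 0`), computed with an integer polynomial `F`, `A = F(ζ)`.

* `Lg_eq`       : `Lg ζ e j A = DL j (F (g X))` for every `F` with `F(ζ) = A`;
* `Lg_mul`, `Lg_pow`, `Lg_pow_p` (`= 0` on `p`-th powers), `Lg_prod`;
* `Lg_zeta`     : `Lg ζ e j (ζ^n) = 0` for `j ≥ 2`;
* `Lg_comp`     : `Lg ζ e j (τ A) = t^j Lg ζ (e ∘ τ) j A` for `τ : 𝓞 M →+* 𝓞 M` with `τ ζ = ζ^t`;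
* `Lg_eval`     : `Lg ζ e j (P(ζ^f)) = f^j DL j (P^(e∘ι))` for `P ∈ R[X]`, `ι : R → ℤ[ζ^p]`;
* `rel_stick`, `rel_eval` : the twisted relation from
  `J^p ∏_{σ ∈ S} σ⁻¹ A = ζ^n Y^p`.
-/

open Polynomial NumberField H45KC

namespace H71AB

/-- the value `F(x)` of an integer polynomial, as a ring homomorphism in `F` -/
noncomputable def iv {R : Type*} [CommRing R] (x : R) : ℤ[X] →+* R :=
  eval₂RingHom (Int.castRingHom R) x

theorem iv_X {R : Type*} [CommRing R] (x : R) : iv x X = x := by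
  simp [iv]

theorem iv_C {R : Type*} [CommRing R] (x : R) (c : ℤ) : iv x (C c) = (c : R) := by
  simp [iv]

/-- ring homomorphisms commute with the values of integer polynomials -/
theorem map_iv {R S : Type*} [CommRing R] [CommRing S] (φ : R →+* S) (x : R) (F : ℤ[X]) :
    φ (iv x F) = iv (φ x) F := by
  rw [iv, iv, coe_eval₂RingHom, coe_eval₂RingHom, hom_eval₂]
  congr 1
  exact Subsingleton.elim _ _

theorem iv_comp {R : Type*} [CommRing R] (x : R) (F G : ℤ[X]) :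
    iv x (F.comp G) = iv (iv x G) F := by
  simp only [iv, coe_eval₂RingHom]
  exact eval₂_comp _

theorem iv_eq_aeval {R : Type*} [CommRing R] (x : R) (F : ℤ[X]) : iv x F = aeval x F := rfl

section alg

variable {k : Type*} [Field k]

theorem gX_eval_one (g : k) (F : ℤ[X]) : (iv (C g * X : k[X]) F).eval 1 = iv g F := by
  have h := map_iv (evalRingHom (1 : k)) (C g * X) F
  simpa using h

theorem gX_comp (g : k) (F : ℤ[X]) (t : ℕ) :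
    iv (C g * X : k[X]) (F.comp (X ^ t)) = (iv (C (g ^ t) * X : k[X]) F).comp (X ^ t) := by
  have h := map_iv (compRingHom (X ^ t : k[X])) (C (g ^ t) * X) F
  rw [coe_compRingHom_apply] at h
  rw [h, iv_comp, coe_compRingHom_apply, map_pow, iv_X]
  simp [mul_pow]

/-- `Φ_{fp}(g X)` is divisible by `(X-1)^(p-1)` in characteristic `p` if `g` is a root of `Φ_{fp}` -/
theorem dvd_cyc (p f : ℕ) [Fact p.Prime] (hpf : ¬ p ∣ f) [CharP k p] (g : k)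
    (hg : iv g (cyclotomic (f * p) ℤ) = 0) :
    (X - 1 : k[X]) ^ (p - 1) ∣ iv (C g * X : k[X]) (cyclotomic (f * p) ℤ) := by
  have hp : p.Prime := Fact.out
  have h1 : iv (C g * X : k[X]) (cyclotomic (f * p) ℤ) =
      ((cyclotomic f k).comp (C g * X)) ^ (p - 1) := by
    rw [← pow_comp, ← cyclotomic_mul_prime_eq_pow_of_not_dvd k hpf, ← map_cyclotomic_int (f * p) k,
      comp, eval₂_map, iv, coe_eval₂RingHom]
    congr 1
  rw [h1]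
  refine pow_dvd_pow_of_dvd ?_ _
  have h2 : iv g (cyclotomic (f * p) ℤ) = ((cyclotomic f k).eval g) ^ (p - 1) := by
    have h3 := gX_eval_one g (cyclotomic (f * p) ℤ)
    rw [h1, eval_pow, eval_comp] at h3
    simpa using h3.symm
  rw [h2] at hg
  have h4 : (cyclotomic f k).eval g = 0 := by
    by_contra h
    exact pow_ne_zero _ h hg
  have h5 : (X - C (1 : k)) ∣ (cyclotomic f k).comp (C g * X) := by
    rw [dvd_iff_isRoot, IsRoot, eval_comp]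
    simpa using h4
  simpa using h5

end alg

section M

variable {p f m : ℕ} {M : Type*} [Field M] [NumberField M]

theorem exists_rp [NeZero m] [IsCyclotomicExtension {m} ℚ M] {ζ : 𝓞 M}
    (hζ : IsPrimitiveRoot ζ m) (A : 𝓞 M) : ∃ F : ℤ[X], iv ζ F = A := by
  have hζ' : IsPrimitiveRoot (ζ : M) m := hζ.map_of_injective RingOfIntegers.coe_injective
  obtain ⟨F, hF⟩ := (hζ'.integralPowerBasis).exists_eq_aeval' A
  refine ⟨F, ?_⟩
  rw [hF, IsPrimitiveRoot.integralPowerBasis_gen]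
  rfl

/-- an integer polynomial `F` with `F(ζ) = A` -/
noncomputable def rp (ζ A : 𝓞 M) : ℤ[X] := Classical.epsilon (fun F => iv ζ F = A)

theorem rp_spec [NeZero m] [IsCyclotomicExtension {m} ℚ M] {ζ : 𝓞 M}
    (hζ : IsPrimitiveRoot ζ m) (A : 𝓞 M) : iv ζ (rp ζ A) = A :=
  Classical.epsilon_spec (exists_rp hζ A)

variable {k : Type*} [Field k]

/-- the `j`-th logarithmic derivative of `A` at the place `e` -/
noncomputable def Lg (ζ : 𝓞 M) (e : 𝓞 M →+* k) (j : ℕ) (A : 𝓞 M) : k :=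
  DL j (iv (C (e ζ) * X : k[X]) (rp ζ A))

theorem gX_sub [Fact p.Prime] [CharP k p] (hpf : ¬ p ∣ f) [NeZero m] (hm : m = f * p)
    {ζ : 𝓞 M} (hζ : IsPrimitiveRoot ζ m) (e : 𝓞 M →+* k) (F G : ℤ[X])
    (h : iv ζ F = iv ζ G) :
    (X - 1 : k[X]) ^ (p - 1) ∣ iv (C (e ζ) * X : k[X]) F - iv (C (e ζ) * X : k[X]) G := by
  have hζ' : IsPrimitiveRoot (ζ : M) m := hζ.map_of_injective RingOfIntegers.coe_injective
  have hc : ∀ H : ℤ[X], iv ζ H = 0 ↔ cyclotomic m ℤ ∣ H := by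
    intro H
    have h1 := map_iv (algebraMap (𝓞 M) M) ζ H
    have h2 : aeval (ζ : M) H = algebraMap (𝓞 M) M (iv ζ H) := h1.symm
    rw [cyclotomic_eq_minpoly hζ' (NeZero.pos m),
      ← minpoly.isIntegrallyClosed_dvd_iff (hζ'.isIntegral (NeZero.pos m)), h2,
      map_eq_zero_iff _ RingOfIntegers.coe_injective]
  have h0 : iv (e ζ) (cyclotomic (f * p) ℤ) = 0 := by
    rw [← map_iv, ← hm, (hc _).2 dvd_rfl, map_zero]
  have h1 : cyclotomic m ℤ ∣ F - G := by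
    rw [← hc, map_sub, h, sub_self]
  rw [← map_sub]
  refine (dvd_cyc p f hpf (e ζ) h0).trans ?_
  obtain ⟨H, hH⟩ := h1
  rw [hH, map_mul, hm]
  exact dvd_mul_right _ _

section L

variable [Fact p.Prime] [CharP k p] (hpf : ¬ p ∣ f) [NeZero m] (hm : m = f * p)
    [IsCyclotomicExtension {m} ℚ M] {ζ : 𝓞 M} (hζ : IsPrimitiveRoot ζ m)

include hpf hm hζ

theorem Lg_eq (e : 𝓞 M →+* k) (j : ℕ) (hj : 1 ≤ j) (hj' : j + 2 ≤ p) (F : ℤ[X]) (A : 𝓞 M)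
    (h : iv ζ F = A) : Lg ζ e j A = DL j (iv (C (e ζ) * X : k[X]) F) := by
  refine DL_congr j hj _ _ ((pow_dvd_pow _ (by omega)).trans
    (gX_sub hpf hm hζ e _ _ ?_))
  rw [rp_spec hζ, h]

omit hpf hm [Fact p.Prime] [CharP k p] in
theorem eval_rp (e : 𝓞 M →+* k) (A : 𝓞 M) :
    (iv (C (e ζ) * X : k[X]) (rp ζ A)).eval 1 = e A := by
  rw [gX_eval_one, ← map_iv, rp_spec hζ]

theorem Lg_mul (e : 𝓞 M →+* k) (j : ℕ) (hj : 1 ≤ j) (hj' : j + 2 ≤ p) (A B : 𝓞 M)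
    (hA : e A ≠ 0) (hB : e B ≠ 0) : Lg ζ e j (A * B) = Lg ζ e j A + Lg ζ e j B := by
  rw [Lg_eq hpf hm hζ e j hj hj' (rp ζ A * rp ζ B) (A * B)
    (by rw [map_mul, rp_spec hζ, rp_spec hζ]), map_mul, DL_mul j hj, Lg, Lg]
  · rwa [eval_rp hζ]
  · rwa [eval_rp hζ]

theorem Lg_pow (e : 𝓞 M →+* k) (j : ℕ) (hj : 1 ≤ j) (hj' : j + 2 ≤ p) (A : 𝓞 M)
    (hA : e A ≠ 0) (n : ℕ) : Lg ζ e j (A ^ n) = n * Lg ζ e j A := by
  rw [Lg_eq hpf hm hζ e j hj hj' (rp ζ A ^ n) (A ^ n)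
    (by rw [map_pow, rp_spec hζ]), map_pow, DL_pow j hj, Lg]
  rwa [eval_rp hζ]

theorem Lg_pow_p (e : 𝓞 M →+* k) (j : ℕ) (hj : 1 ≤ j) (hj' : j + 2 ≤ p) (A : 𝓞 M)
    (hA : e A ≠ 0) : Lg ζ e j (A ^ p) = 0 := by
  rw [Lg_pow hpf hm hζ e j hj hj' A hA, CharP.cast_eq_zero, zero_mul]

theorem Lg_prod (e : 𝓞 M →+* k) (j : ℕ) (hj : 1 ≤ j) (hj' : j + 2 ≤ p) {ι : Type*}
    (S : Finset ι) (A : ι → 𝓞 M) (hA : ∀ i ∈ S, e (A i) ≠ 0) :
    Lg ζ e j (∏ i ∈ S, A i) = ∑ i ∈ S, Lg ζ e j (A i) := by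
  classical
  induction S using Finset.induction_on with
  | empty =>
    have h := Lg_eq hpf hm hζ e j hj hj' 1 1 (map_one _)
    rw [Finset.prod_empty, Finset.sum_empty, h, map_one, ← C_1, DL_C j hj]
  | insert a s ha ih =>
    have h1 : ∀ i ∈ s, e (A i) ≠ 0 := fun i hi => hA i (Finset.mem_insert_of_mem hi)
    rw [Finset.prod_insert ha, Finset.sum_insert ha, Lg_mul hpf hm hζ e j hj hj', ih h1]
    · exact hA a (Finset.mem_insert_self _ _)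
    · rw [map_prod]
      exact Finset.prod_ne_zero_iff.2 h1

theorem Lg_zeta (e : 𝓞 M →+* k) (j : ℕ) (hj : 2 ≤ j) (hj' : j + 2 ≤ p) (n : ℕ) :
    Lg ζ e j (ζ ^ n) = 0 := by
  have hj1 : 1 ≤ j := by omega
  have h0 : e ζ ≠ 0 := ((hζ.isUnit (NeZero.ne m)).map e).ne_zero
  rw [Lg_pow hpf hm hζ e j hj1 hj' ζ h0, Lg_eq hpf hm hζ e j hj1 hj' X ζ (iv_X _), iv_X,
    DL_mul j hj1 _ _ (by simpa using h0) (by simp), DL_C j hj1, DL_X j hj, add_zero, mul_zero]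

theorem Lg_comp (e : 𝓞 M →+* k) (j : ℕ) (hj : 1 ≤ j) (hj' : j + 2 ≤ p) (τ : 𝓞 M →+* 𝓞 M)
    (t : ℕ) (hτ : τ ζ = ζ ^ t) (A : 𝓞 M) : Lg ζ e j (τ A) = (t : k) ^ j * Lg ζ (e.comp τ) j A := by
  have h1 : iv ζ ((rp ζ A).comp (X ^ t)) = τ A := by
    rw [iv_comp, map_pow, iv_X, ← hτ, ← map_iv, rp_spec hζ]
  rw [Lg_eq hpf hm hζ e j hj hj' _ _ h1, gX_comp, DL_comp j hj, Lg, RingHom.comp_apply, hτ,
    map_pow e]

/-- elements of `ℤ[ζ^p]` are constants -/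
theorem gX_const (e : 𝓞 M →+* k) (x : 𝓞 M) (hx : x ∈ Algebra.adjoin ℤ {ζ ^ p}) :
    (X - 1 : k[X]) ^ (p - 1) ∣ iv (C (e ζ) * X : k[X]) (rp ζ x) - C (e x) := by
  rw [Algebra.adjoin_singleton_eq_range_aeval] at hx
  obtain ⟨F, hF⟩ := hx
  have hF' : iv (ζ ^ p) F = x := hF
  have h1 : iv ζ (rp ζ x) = iv ζ (F.comp (X ^ p)) := by
    rw [rp_spec hζ, iv_comp, map_pow, iv_X, hF']
  have h2 := gX_sub hpf hm hζ e _ _ h1
  have h3 : (X - 1 : k[X]) ^ (p - 1) ∣ iv (C (e ζ) * X : k[X]) (F.comp (X ^ p)) - C (e x) := by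
    rw [gX_comp]
    have h4 : (X - 1 : k[X]) ^ (p - 1) ∣ (X ^ p : k[X]) - 1 := by
      have h5 : (X ^ p : k[X]) - 1 = (X - 1) ^ p := by
        rw [sub_pow_char, one_pow]
      rw [h5]
      exact pow_dvd_pow _ (Nat.sub_le _ _)
    have h6 : (X ^ p : k[X]) - 1 ∣ (iv (C (e ζ ^ p) * X : k[X]) F).comp (X ^ p) -
        C ((iv (C (e ζ ^ p) * X : k[X]) F).eval 1) := by
      have h7 := sub_dvd_eval_sub (X ^ p : k[X]) (C 1) ((iv (C (e ζ ^ p) * X : k[X]) F).map C)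
      rw [eval_map, ← comp, eval_map, ← comp, comp_C, C_1] at h7
      exact h7
    rw [gX_eval_one] at h6
    have h8 : iv (e ζ ^ p) F = e x := by
      rw [← hF', map_iv, map_pow]
    rw [h8] at h6
    exact h4.trans h6
  have h9 := dvd_add h2 h3
  rwa [sub_add_sub_cancel] at h9

theorem Lg_eval (e : 𝓞 M →+* k) (j : ℕ) (hj : 1 ≤ j) (hj' : j + 2 ≤ p) {R : Type*} [CommRing R]
    (ι : R →+* 𝓞 M) (hι : ∀ r, ι r ∈ Algebra.adjoin ℤ {ζ ^ p}) (P : R[X]) :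
    Lg ζ e j (P.eval₂ ι (ζ ^ f)) = (f : k) ^ j * DL j (P.map (e.comp ι)) := by
  have hp : p.Prime := Fact.out
  have hgf : e ζ ^ f = 1 := by
    have h1 : (e ζ ^ f) ^ p = 1 := by
      rw [← pow_mul, ← hm, ← map_pow, hζ.pow_eq_one, map_one]
    have h2 : (e ζ ^ f - 1) ^ p = 0 := by
      rw [sub_pow_char, h1, one_pow, sub_self]
    exact sub_eq_zero.1 (eq_zero_of_pow_eq_zero h2)
  -- the polynomial `∑ rp (ι c_i) X^(f i)`
  have key : ∀ P : R[X], ∃ F : ℤ[X], iv ζ F = P.eval₂ ι (ζ ^ f) ∧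
      (X - 1 : k[X]) ^ (p - 1) ∣ iv (C (e ζ) * X : k[X]) F - (P.map (e.comp ι)).comp (X ^ f) := by
    intro P
    induction P using Polynomial.induction_on' with
    | add P Q hP hQ =>
      obtain ⟨F, hF1, hF2⟩ := hP
      obtain ⟨G, hG1, hG2⟩ := hQ
      refine ⟨F + G, by rw [map_add, hF1, hG1, eval₂_add], ?_⟩
      have h := dvd_add hF2 hG2
      rw [Polynomial.map_add, add_comp, map_add]
      convert h using 1
      ring
    | monomial n c =>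
      refine ⟨rp ζ (ι c) * X ^ (f * n), ?_, ?_⟩
      · rw [map_mul, map_pow, iv_X, rp_spec hζ, eval₂_monomial, ← pow_mul]
      · rw [map_mul, map_pow, iv_X, map_monomial, ← C_mul_X_pow_eq_monomial, mul_comp, C_comp,
          X_pow_comp, mul_pow, ← C_pow, pow_mul (e ζ), hgf, one_pow, C_1, one_mul, pow_mul X,
          ← sub_mul]
        exact (gX_const hpf hm hζ e (ι c) (hι c)).mul_right _
  obtain ⟨F, hF1, hF2⟩ := key P
  rw [Lg_eq hpf hm hζ e j hj hj' F _ hF1, ← DL_comp j hj]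
  exact DL_congr j hj _ _ ((pow_dvd_pow _ (by omega)).trans hF2)

omit hpf hm hζ [Fact p.Prime] [IsCyclotomicExtension {m} ℚ M] [NeZero m] [NumberField M] in
theorem ev_ne_zero (e : 𝓞 M →+* k) (A : 𝓞 M)
    (hA : ∀ P : Ideal (𝓞 M), P.IsPrime → (p : 𝓞 M) ∈ P → A ∉ P) : e A ≠ 0 := by
  intro h
  refine hA (RingHom.ker e) (RingHom.ker_isPrime e) ?_ h
  rw [RingHom.mem_ker, map_natCast, CharP.cast_eq_zero]

/-- the action of an automorphism on the ring of integers, as a ring homomorphism -/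
noncomputable def act (σ : M ≃ₐ[ℚ] M) : 𝓞 M →+* 𝓞 M := MulSemiringAction.toRingHom _ _ σ

omit hpf hm hζ [Fact p.Prime] [IsCyclotomicExtension {m} ℚ M] [NeZero m] in
theorem act_apply (σ : M ≃ₐ[ℚ] M) (x : 𝓞 M) : act σ x = σ • x := rfl

theorem rel_stick (e : 𝓞 M →+* k) (S : Finset (M ≃ₐ[ℚ] M)) (A J Y : 𝓞 M)
    (hA : ∀ P : Ideal (𝓞 M), P.IsPrime → (p : 𝓞 M) ∈ P → A ∉ P)
    (hJ : ∀ P : Ideal (𝓞 M), P.IsPrime → (p : 𝓞 M) ∈ P → J ∉ P)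
    (hY : ∀ P : Ideal (𝓞 M), P.IsPrime → (p : 𝓞 M) ∈ P → Y ∉ P)
    (n : ℕ) (h : J ^ p * ∏ σ ∈ S, σ⁻¹ • A = ζ ^ n * Y ^ p)
    (j : ℕ) (hj : 2 ≤ j) (hj' : j + 2 ≤ p) :
    ∑ σ ∈ S, (((IsCyclotomicExtension.Rat.galEquivZMod m M σ)⁻¹.val.val : ℕ) : k) ^ j *
      Lg ζ (e.comp (act σ⁻¹)) j A = 0 := by
  have hj1 : 1 ≤ j := by omega
  have h0 : e ζ ≠ 0 := ((hζ.isUnit (NeZero.ne m)).map e).ne_zero
  have hAσ : ∀ σ : M ≃ₐ[ℚ] M, e (σ⁻¹ • A) ≠ 0 := fun σ => ev_ne_zero (e.comp (act σ⁻¹)) A hA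
  have h1 : Lg ζ e j (∏ σ ∈ S, σ⁻¹ • A) = 0 := by
    have h2 := congrArg (Lg ζ e j) h
    rw [Lg_mul hpf hm hζ e j hj1 hj' _ _ (by rw [map_pow]; exact pow_ne_zero _ (ev_ne_zero e J hJ))
        (by rw [map_prod]; exact Finset.prod_ne_zero_iff.2 fun σ _ => hAσ σ),
      Lg_mul hpf hm hζ e j hj1 hj' _ _ (by rw [map_pow]; exact pow_ne_zero _ h0)
        (by rw [map_pow]; exact pow_ne_zero _ (ev_ne_zero e Y hY)),
      Lg_pow_p hpf hm hζ e j hj1 hj' _ (ev_ne_zero e J hJ),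
      Lg_pow_p hpf hm hζ e j hj1 hj' _ (ev_ne_zero e Y hY),
      Lg_zeta hpf hm hζ e j hj hj', zero_add, add_zero] at h2
    exact h2
  rw [Lg_prod hpf hm hζ e j hj1 hj' _ _ (fun σ _ => hAσ σ)] at h1
  rw [← h1]
  refine Finset.sum_congr rfl fun σ _ => ?_
  have h3 := Lg_comp hpf hm hζ e j hj1 hj' (act σ⁻¹)
    ((IsCyclotomicExtension.Rat.galEquivZMod m M σ)⁻¹.val.val) (by
      rw [act_apply, IsCyclotomicExtension.Rat.galEquivZMod_smul_of_pow_eq m M σ⁻¹ hζ.pow_eq_one,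
        map_inv]) A
  rw [act_apply] at h3
  rw [h3]

/-- the twisted relation for the value of a polynomial at `ζ_p = ζ^f` -/
theorem rel_eval (e : 𝓞 M →+* k) {R : Type*} [CommRing R] (ι : R →+* 𝓞 M)
    (hι : ∀ r, ι r ∈ Algebra.adjoin ℤ {ζ ^ p}) (P : R[X])
    (S : Finset (M ≃ₐ[ℚ] M)) (J Y : 𝓞 M)
    (hA : ∀ Q : Ideal (𝓞 M), Q.IsPrime → (p : 𝓞 M) ∈ Q → P.eval₂ ι (ζ ^ f) ∉ Q)
    (hJ : ∀ Q : Ideal (𝓞 M), Q.IsPrime → (p : 𝓞 M) ∈ Q → J ∉ Q)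
    (hY : ∀ Q : Ideal (𝓞 M), Q.IsPrime → (p : 𝓞 M) ∈ Q → Y ∉ Q)
    (n : ℕ) (h : J ^ p * ∏ σ ∈ S, σ⁻¹ • (P.eval₂ ι (ζ ^ f)) = ζ ^ n * Y ^ p)
    (j : ℕ) (hj : 2 ≤ j) (hj' : j + 2 ≤ p) :
    ∑ σ ∈ S, (((IsCyclotomicExtension.Rat.galEquivZMod m M σ)⁻¹.val.val : ℕ) : k) ^ j *
      DL j (P.map ((e.comp (act σ⁻¹)).comp ι)) = 0 := by
  have hf : (f : k) ≠ 0 := by
    rw [Ne, CharP.cast_eq_zero_iff k p]
    exact hpf
  have h1 := rel_stick hpf hm hζ e S _ J Y hA hJ hY n h j hj hj'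
  have h2 : (f : k) ^ j * ∑ σ ∈ S,
      (((IsCyclotomicExtension.Rat.galEquivZMod m M σ)⁻¹.val.val : ℕ) : k) ^ j *
        DL j (P.map ((e.comp (act σ⁻¹)).comp ι)) = 0 := by
    rw [Finset.mul_sum, ← h1]
    refine Finset.sum_congr rfl fun σ _ => ?_
    rw [Lg_eval hpf hm hζ (e.comp (act σ⁻¹)) j (by omega) hj' ι hι P]
    ring
  exact (mul_eq_zero.1 h2).resolve_left (pow_ne_zero _ hf)

end L

end M

end H71AB
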